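import Pool.Agent.Helper56_MG.Stmts
import Pool.Agent.Helper56_MG.Base3

/-!
# Squad MG: common part of the modules RM and RS (helper14)
-/

open Set

namespace Pool.Agent.MG.H14

open Pool.Agent.MG

variable {I : Type} [Idx I]

/-! ### Decision of initial segments of a name -/

/-- The numbers which are in `f y` for all the points of the condition. -/
def FC (f : Pt I → Set ℕ) (e : Cond I) : Set ℕ := {n | ∀ y' ∈ e.body, n ∈ f y'}

/-- The condition decides `f y` up to `m`. -/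
def Dd (f : Pt I → Set ℕ) (m : ℕ) : Set (Cond I) :=
  {d | ∀ n, n < m → (∀ y' ∈ d.body, n ∈ f y') ∨ (∀ y' ∈ d.body, n ∉ f y')}

theorem mem_FC_iff {f : Pt I → Set ℕ} {m n : ℕ} {d e : Cond I} (hd : d ∈ Dd f m) (he : e ≤ d)
    (hn : n < m) {y' : Pt I} (hy : y' ∈ e.body) : n ∈ f y' ↔ n ∈ FC f e := by
  rcases hd n hn with h | h
  · constructor
    · intro _ z hz
      exact h z (he hz)
    · intro h'
      exact h' y' hy
  · constructor
    · intro h'
      exact absurd h' (h y' (he hy))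
    · intro h'
      exact h' y' hy

theorem exists_dec (hProp : PropStmt I) (hCst2 : Cst2Stmt I) {β : I} {f : Pt I → Set ℕ}
    (hf : Measurable f) (hfd : Dep β f) {e : Cond I} (he : VB β e) (m : ℕ) :
    ∃ d, d ≤ e ∧ VB β d ∧ d ∈ Dd f m := by
  classical
  obtain ⟨h1, -⟩ := hCst2 β (hProp β).1 (hProp β).2.1
  have hm : MeasC (fun y : Pt I => fun i : Fin m => decide ((i : ℕ) ∈ f y)) := by
    apply measC_of_countable
    intro x
    have : {w : Pt I | (fun i : Fin m => decide ((i : ℕ) ∈ f w)) = x}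
        = ⋂ i : Fin m, {w | decide ((i : ℕ) ∈ f w) = x i} := by
      ext w
      simp only [Set.mem_setOf_eq, Set.mem_iInter, funext_iff]
    rw [this]
    apply MeasurableSet.iInter
    intro i
    have h2 := measurable_nat_iff.1 hf (i : ℕ)
    cases hx : x i
    · have h3 : {w | decide ((i : ℕ) ∈ f w) = false} = {w | (i : ℕ) ∈ f w}ᶜ := by
        ext w
        simp
      rw [h3]
      exact h2.compl
    · have h3 : {w | decide ((i : ℕ) ∈ f w) = true} = {w | (i : ℕ) ∈ f w} := by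
        ext w
        simp
      rw [h3]
      exact h2
  obtain ⟨q, hq1, hq2, x, hx⟩ := h1 e he (Fin m → Bool) _ hm (by
    intro y y' h
    simp only [hfd y y' h])
  refine ⟨q, hq1, hq2, ?_⟩
  intro n hn
  cases hxn : x ⟨n, hn⟩
  · right
    intro y' hy'
    have := congrFun (hx y' hy') ⟨n, hn⟩
    simpa [hxn] using this
  · left
    intro y' hy'
    have := congrFun (hx y' hy') ⟨n, hn⟩
    simpa [hxn] using this

/-- Good hulls which decide the initial segments of a name. -/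
theorem hull_dec (hProp : PropStmt I) (hHull : HullStmt.{0} I) (hGd : GdStmt I)
    (hCst2 : Cst2Stmt I) {α β : I} (hαβ : α < β) {f : Pt I → Set ℕ}
    (hf : Measurable f) (hfd : Dep β f) {p : Cond I} (hp : VB β p) :
    ∃ (p' : Cond I) (N : Set (Cond I)) (Z : Set I) (𝒟 : Set (Set (Cond I))),
      p' ≤ p ∧ p' ∈ N ∧ α ∈ Z ∧ GoodN I β N Z ∧ GoodD I β N Z 𝒟 ∧ ∀ m, Dd f m ∈ 𝒟 := by
  set p' : Cond I := p.setT α (p.T α) (p.meas α) (p.dep α) with hp'
  have hg : ∀ y ∈ (p.restr α).body, Good (ty α) (p.T α y) ∧ p.T α y ⊆ p.T α y :=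
    fun y _ => ⟨p.good α y, Set.Subset.rfl⟩
  have hVp' : VB β p' := VB.setT hp hαβ _ _ _ hg (fun ht => hp.lv ht)
  have hle : p' ≤ p := Cond.setT_le p _ _ _ hg
  have hαS : α ∈ p'.S := by
    rw [hp', Cond.setT_S]
    exact Set.mem_insert _ _
  obtain ⟨N, Z, Y, B, hN, -, h0, -, -, -, hRu⟩ := hHull β (fun ρ _ => ⟨(hProp ρ).1, (hProp ρ).2.1⟩)
    PEmpty {Sum.inl p'} (Set.countable_singleton _) (by
      intro e he
      rw [Set.mem_singleton_iff, Sum.inl.injEq] at he
      rw [he]; exact hVp') Set.univ Set.infinite_univ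
    (fun n l O _ => ∀ e, l = [Sum.inl e] → ∃ d, Sum.inl d ∈ O ∧ d ≤ e ∧ d ∈ Dd f n) (by
      intro n l hl C' _ hC'
      by_cases h : ∃ e, l = [Sum.inl e]
      · obtain ⟨e, rfl⟩ := h
        obtain ⟨d, hd1, hd2, hd3⟩ := exists_dec hProp hCst2 hf hfd (hl e (by simp)) n
        refine ⟨{Sum.inl d}, Set.countable_singleton _, ?_, C', Set.Subset.rfl, hC', ?_⟩
        · intro e' he'
          rw [Set.mem_singleton_iff, Sum.inl.injEq] at he'
          rw [he']; exact hd2
        · intro e' he'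
          simp only [List.cons.injEq, Sum.inl.injEq, and_true] at he'
          rw [← he']
          exact ⟨d, rfl, hd1, hd3⟩
      · refine ⟨∅, Set.countable_empty, ?_, C', Set.Subset.rfl, hC', ?_⟩
        · intro e he
          exact absurd he (Set.notMem_empty _)
        · intro e he
          exact absurd ⟨e, he⟩ h)
  have hpN : p' ∈ N := h0 p' rfl
  have hdense : ∀ n, ∀ e ∈ N, ∃ d ∈ N, d ≤ e ∧ d ∈ Dd f n := by
    intro n e he
    obtain ⟨O, hO, -, C', -, -, -, hR⟩ := hRu n [Sum.inl e] (by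
      intro e' he'
      simp only [List.mem_singleton, Sum.inl.injEq] at he'
      rw [he']; exact he) (by
      intro x _
      exact x.elim)
    obtain ⟨d, hd1, hd2, hd3⟩ := hR e rfl
    exact ⟨d, hO d hd1, hd2, hd3⟩
  obtain ⟨𝒟, hD0, hD⟩ := hGd β N Z hN (Set.range (Dd f)) (Set.countable_range _) (by
    rintro D ⟨n, rfl⟩ e he
    exact hdense n e he)
  exact ⟨p', N, Z, 𝒟, hle, hpN, hN.supp p' hpN hαS, hN, hD, fun m => hD0 ⟨m, rfl⟩⟩

/-- Generic conditions. -/
theorem gen_cond (hProp : PropStmt I) (hClaim : ClaimStmt I) (hHg : HgStmt I) {α β : I}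
    (hαβ : α < β) {N : Set (Cond I)} {Z : Set I} {𝒟 : Set (Set (Cond I))}
    (hN : GoodN I β N Z) (hD : GoodD I β N Z 𝒟) {e0 : Cond I} (he0 : e0 ∈ N) :
    ∃ r, VB α r ∧ ∀ y ∈ r.body, y ∈ (e0.restr α).body ∧ Gen I N 𝒟 α y := by
  obtain ⟨hg1, -, hg3, -⟩ := hHg β N Z 𝒟 hN hD
  obtain ⟨q, hq1, -, hq3⟩ := hClaim β N Z 𝒟 hN hD (fun ρ _ => ⟨(hProp ρ).1, (hProp ρ).2.1⟩)
    bt α (lt_of_le_of_lt (bt_le α) hαβ) (bt_le α) hαβ.le (Cond.one I) (VB_one bt)
    (fun _ => e0) (measC_const e0) (fun _ _ _ => rfl) (by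
      intro y _
      refine ⟨he0, ?_, hg3 y⟩
      rw [Cond.mem_restr]
      intro i _ hi
      exact absurd hi (not_lt.2 (bt_le i)))
  refine ⟨q, hq1, fun y hy => ?_⟩
  obtain ⟨h1, h2⟩ := hq3 y hy
  exact ⟨h1, hg1 α hαβ e0 he0 y h1 h2⟩

/-! ### Types of countably many names -/

theorem types (hProp : PropStmt I) {ρ : I} (hRp : Rp I ρ) {r : Cond I} (hr : VB ρ r)
    {C : Set ℕ} (hC : C.Infinite) (X : ℕ → Pt I → Set ℕ)
    (hX : ∀ n, Measurable (X n) ∧ Dep ρ (X n)) :
    ∃ q, q ≤ r ∧ VB ρ q ∧ ∃ B ⊆ C, B.Infinite ∧ ∃ (i : ℕ → Pt I → Bool) (l : ℕ → Pt I → ℕ),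
      (∀ n, MeasC (i n) ∧ Dep ρ (i n)) ∧ (∀ n, MeasC (l n) ∧ Dep ρ (l n)) ∧
      ∀ y ∈ q.body, ∀ n, ∀ b ∈ B, l n y ≤ b → (b ∈ X n y ↔ i n y = true) := by
  classical
  obtain ⟨q, hq1, hq2, B, hB1, hB2, hE⟩ := (hProp ρ).2.2 r hr C hC
    (fun n d C' => ∃ i : Bool, ∀ y ∈ d.body, ∀ b ∈ C', (b ∈ X n y ↔ i = true)) (by
      intro n d hd _ C' _ hC'
      obtain ⟨q, h1, h2, B, h3, h4, i, h5⟩ := hRp d hd C' hC' (X n) (hX n).1 (hX n).2
      exact ⟨q, h1, h2, B, h3, h4, i, h5⟩)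
  choose E hE1 hE2 hE3 using hE
  -- type and bound of an element of `E n`
  have hE4 : ∀ n d, ∃ (i : Bool) (l : ℕ), d ∈ E n → ∀ y ∈ d.body, ∀ b ∈ B, l ≤ b →
      (b ∈ X n y ↔ i = true) := by
    intro n d
    by_cases hd : d ∈ E n
    · obtain ⟨-, -, C', -, -, hf, i, hi⟩ := hE3 n d hd
      obtain ⟨l, hl⟩ := hf.bddAbove
      refine ⟨i, l + 1, fun _ y hy b hb hlb => hi y hy b ?_⟩
      by_contra hbC
      have := hl ⟨hb, hbC⟩
      omega
    · exact ⟨true, 0, fun h => absurd h hd⟩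
  choose i l hil using hE4
  have hsel : ∀ n, ∃ c : Pt I → Cond I, MeasC c ∧ DepOn (Set.Iio ρ) c ∧
      ∀ y, (∃ d ∈ E n, y ∈ d.body) → c y ∈ E n ∧ y ∈ (c y).body := by
    intro n
    haveI : Nonempty (Cond I) := ⟨Cond.one I⟩
    obtain ⟨c, h1, h2, h3⟩ := exists_sel (E n) (hE1 n) (fun d y => y ∈ d.body)
      (fun d _ => d.measurableSet_body) (Set.Iio ρ) (by
        intro d hd y y' h
        have hb : d.Below ρ := (hE3 n d hd).1.below
        exact propext (hb.mem_congr h))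
    exact ⟨c, h1, h2, h3⟩
  choose c hc1 hc2 hc3 using hsel
  refine ⟨q, hq1, hq2, B, hB1, hB2, fun n y => i n (c n y), fun n y => l n (c n y), ?_, ?_, ?_⟩
  · intro n
    exact ⟨(hc1 n).comp (i n), fun y y' h => by simp only [hc2 n y y' h]⟩
  · intro n
    exact ⟨(hc1 n).comp (l n), fun y y' h => by simp only [hc2 n y y' h]⟩
  · intro y hy n b hb hlb
    have h1 : ∃ d ∈ E n, y ∈ d.body := by
      have := hE2 n hy
      simp only [Set.mem_iUnion, exists_prop] at this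
      exact this
    obtain ⟨h2, h3⟩ := hc3 n y h1
    exact hil n (c n y) h2 y h3 b hb hlb

/-! ### The core: types and gaps -/

theorem core (hProp : PropStmt I) (hCst2 : Cst2Stmt I) (hTyp : TypStmt) (hGap : GapStmt)
    {ρ : I} (hRp : Rp I ρ) {r : Cond I} (hr : VB ρ r) {C : Set ℕ} (hC : C.Infinite)
    (X : List ℕ → Pt I → Set ℕ) (hX : ∀ σ, Measurable (X σ) ∧ Dep ρ (X σ)) (K : ℕ → ℕ)
    (hK : ∀ n, ∃ k, n ≤ k ∧ n ≤ K k) :
    ∃ q, q ≤ r ∧ VB ρ q ∧ ∃ B ⊆ C, B.Infinite ∧ ∃ (i : Bool) (h : List ℕ → Pt I → List ℕ)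
      (D : Pt I → Set (List ℕ)), (∀ σ, MeasC (h σ) ∧ Dep ρ (h σ)) ∧
      (∀ σ, MeasurableSet {y | σ ∈ D y}) ∧ Dep ρ D ∧
      ∀ y ∈ q.body, (∀ σ k, h σ y ++ [k] <+: h (σ ++ [k]) y) ∧ Big (D y) ∧ ∀ b ∈ B,
        (∀ σ ∈ D y, (∃ j, ∃ hj : j < σ.length, b < K σ[j] ∧
            (b ∈ X (h (σ.take j) y) y ↔ i = true)) ∨ (b ∈ X (h σ y) y ↔ i = true)) ∧
        ∀ g : ℕ → ℕ, (∀ n, MG.ini g n ∈ D y) → ∃ j, b < K (g j) ∧
          (b ∈ X (h (MG.ini g j) y) y ↔ i = true) := by
  classical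
  obtain ⟨hcst, -, -, -⟩ := hCst2 ρ (hProp ρ).1 (hProp ρ).2.1
  -- types
  obtain ⟨q1, hq1, hV1, B1, hB1, hB1i, i, l, hi, hl, hil⟩ :=
    types hProp hRp hr hC (fun n => X (Encodable.decode (α := List ℕ) n |>.getD []))
      (fun n => hX _)
  obtain ⟨v, h, hv, hh, htyp⟩ := hTyp
  obtain ⟨nn, D, hnn, hDm, hgap⟩ := hGap
  -- type and bound of the sequences
  set ty' : Pt I → List ℕ → Bool := fun y σ => i (Encodable.encode σ) y with hty'
  set ly : Pt I → List ℕ → ℕ := fun y σ => l (Encodable.encode σ) y with hly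
  have hil' : ∀ y ∈ q1.body, ∀ σ, ∀ b ∈ B1, ly y σ ≤ b → (b ∈ X σ y ↔ ty' y σ = true) := by
    intro y hy σ b hb hlb
    have := hil y hy (Encodable.encode σ) b hb hlb
    simpa only [Encodable.encodek, Option.getD_some] using this
  have htym : Measurable ty' := by
    rw [measurable_pi_iff]
    intro σ
    exact (hi _).1.measurable
  have htyd : Dep ρ ty' := by
    intro y y' hy
    funext σ
    exact (hi _).2 y y' hy
  have hlm : ∀ σ, MeasC (fun y => ly y σ) := fun σ => (hl _).1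
  -- constant type
  have hvC : MeasC (fun y => v (ty' y)) := by
    refine ⟨fun x => ?_, Set.to_countable _⟩
    exact htym (hv.1 x)
  have hhC : ∀ σ, MeasC (fun y => h σ (ty' y)) := by
    intro σ
    refine ⟨fun x => htym ((hh σ).1 x), Set.to_countable _⟩
  have hhd : ∀ σ, Dep ρ (fun y => h σ (ty' y)) := by
    intro σ y y' hy
    simp only [htyd y y' hy]
  -- gaps
  set z : Pt I → (List ℕ → ℕ) × (List ℕ → ℕ → ℕ) :=
    fun y => (fun σ => ly y (h σ (ty' y)), fun _ k => K k) with hz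
  have hzm : Measurable z := by
    refine Measurable.prodMk ?_ measurable_const
    rw [measurable_pi_iff]
    intro σ
    have : MeasC (fun y => ly y (h σ (ty' y))) :=
      MeasC.bindC (f := fun y => h σ (ty' y)) (hhC σ) (g := fun τ y => ly y τ) hlm
    exact this.measurable
  have hzd : Dep ρ z := by
    intro y y' hy
    simp only [hz, Prod.mk.injEq, and_true]
    funext σ
    rw [htyd y y' hy]
    exact (hl _).2 y y' hy
  have hzK : ∀ y σ n, ∃ k, n ≤ k ∧ n ≤ (z y).2 σ k := fun y σ n => hK n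
  have hnnC : ∀ k, MeasC (fun y => nn (z y) k) := by
    intro k
    refine ⟨fun x => hzm ((hnn k).1 x), Set.to_countable _⟩
  obtain ⟨q2, hq2, hV2, i0, hi0⟩ := hcst q1 hV1 Bool _ hvC (by
    intro y y' hy
    simp only [htyd y y' hy])
  obtain ⟨q3, hq3, hV3, n0, hn0⟩ := hcst q2 hV2 ℕ _ (hnnC 0) (by
    intro y y' hy
    simp only [hzd y y' hy])
  -- parity
  set A : Pt I → Set ℕ := fun y => {b | ∃ m, nn (z y) (2 * m) ≤ b ∧ b < nn (z y) (2 * m + 1)}
    with hA
  have hAm : Measurable A := by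
    rw [measurable_nat_iff]
    intro b
    have : {w | b ∈ A w} = ⋃ m : ℕ, ({w | nn (z w) (2 * m) ∈ Set.Iic b} ∩
        {w | nn (z w) (2 * m + 1) ∈ Set.Ioi b}) := by
      ext w
      simp only [hA, Set.mem_setOf_eq, Set.mem_iUnion, Set.mem_inter_iff, Set.mem_Iic,
        Set.mem_Ioi]
    rw [this]
    exact MeasurableSet.iUnion fun m => ((hnnC _).preimage _).inter ((hnnC _).preimage _)
  have hAd : Dep ρ A := by
    intro y y' hy
    simp only [hA, hzd y y' hy]
  obtain ⟨q4, hq4, hV4, B2, hB2, hB2i, w, hw⟩ := hRp q3 hV3 B1 hB1i A hAm hAd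
  refine ⟨q4, hq4.trans (hq3.trans (hq2.trans hq1)), hV4, B2 \ Set.Iio n0, ?_, ?_, i0,
    fun σ y => h σ (ty' y), fun y => D (!w) (z y), fun σ => ⟨hhC σ, hhd σ⟩, ?_, ?_, ?_⟩
  · exact (Set.diff_subset).trans (hB2.trans hB1)
  · exact hB2i.diff (Set.finite_Iio n0)
  · intro σ
    exact hzm (hDm (!w) σ)
  · intro y y' hy
    simp only [hzd y y' hy]
  · intro y hy
    have hy3 : y ∈ q3.body := hq4 hy
    have hy2 : y ∈ q2.body := hq3 hy3
    have hy1 : y ∈ q1.body := hq2 hy2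
    obtain ⟨hmono, hG⟩ := hgap (z y) (hzK y)
    obtain ⟨hbig, hG⟩ := hG (!w)
    have htyp1 := (htyp (ty' y)).1
    have htyp2 := (htyp (ty' y)).2
    have hvy : v (ty' y) = i0 := hi0 y hy2
    have hny : nn (z y) 0 = n0 := hn0 y hy3
    refine ⟨htyp2, hbig, ?_⟩
    intro b hb
    have hbn : n0 ≤ b := not_lt.1 hb.2
    have hb1 : b ∈ B1 := hB2 hb.1
    -- the interval of `b`
    have hint : ∃ m, m % 2 = (if (!w) = true then 1 else 0) ∧ nn (z y) m ≤ b ∧
        b < nn (z y) (m + 1) := by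
      have hex : ∃ m, b < nn (z y) m := ⟨b + 1, lt_of_lt_of_le (Nat.lt_succ_self b)
        (hmono.le_apply)⟩
      set m0 := Nat.find hex with hm0
      have hm1 : b < nn (z y) m0 := Nat.find_spec hex
      have hm2 : m0 ≠ 0 := by
        intro h0
        rw [h0, hny] at hm1
        omega
      obtain ⟨m, hm⟩ := Nat.exists_eq_succ_of_ne_zero hm2
      have hm3 : nn (z y) m ≤ b := by
        have := Nat.find_min hex (m := m) (by omega)
        exact not_lt.1 this
      rw [hm] at hm1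
      replace hm1 : b < nn (z y) (m + 1) := hm1
      have hwy := hw y hy b hb.1
      rcases Nat.even_or_odd' m with ⟨c, hc | hc⟩
      · have : b ∈ A y := ⟨c, by rw [← hc]; exact hm3, by rw [← hc]; exact hm1⟩
        have hwt : w = true := hwy.1 this
        refine ⟨m, ?_, hm3, hm1⟩
        rw [hwt]
        simp only [Bool.not_true, Bool.false_eq_true, if_false]
        omega
      · have hnA : b ∉ A y := by
          rintro ⟨c', hc1, hc2⟩
          have e1 : 2 * c' < m + 1 := by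
            by_contra hcon
            have := hmono.monotone (not_lt.1 hcon)
            omega
          have e2 : m < 2 * c' + 1 := by
            by_contra hcon
            have := hmono.monotone (not_lt.1 hcon)
            omega
          omega
        have hwt : w = false := by
          cases hww : w
          · rfl
          · exact absurd (hwy.2 hww) hnA
        refine ⟨m, ?_, hm3, hm1⟩
        rw [hwt]
        simp only [Bool.not_false, if_true]
        omega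
    obtain ⟨m, hm1, hm2, hm3⟩ := hint
    obtain ⟨hG1, hG2⟩ := hG m hm1 b hm2 hm3
    have hXi : ∀ σ, (z y).1 σ ≤ b → (b ∈ X (h σ (ty' y)) y ↔ i0 = true) := by
      intro σ hσ
      have := hil' y hy1 (h σ (ty' y)) b hb1 hσ
      rw [this, htyp1 σ, hvy]
    constructor
    · intro σ hσ
      rcases hG1 σ hσ with ⟨j, hj, hj1, hj2⟩ | h'
      · left
        exact ⟨j, hj, hj2, hXi _ hj1⟩
      · right
        exact hXi _ h'
    · intro g hg
      obtain ⟨j, hj1, hj2⟩ := hG2 g hg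
      exact ⟨j, hj2, hXi _ hj1⟩

end Pool.Agent.MG.H14
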