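import Pool.Agent.Helper14_MG.Common

/-!
# Squad MG: module RM, reaping at a Miller successor (helper14)
-/

open Set

namespace Pool.Agent.MG.H14

open Pool.Agent.MG

variable {I : Type} [Idx I]

theorem ini_succ (g : ℕ → ℕ) (n : ℕ) : MG.ini g (n + 1) = MG.ini g n ++ [g n] := by
  simp [MG.ini, List.range_succ]

/-- A point which is below `α` in the restriction and whose value at `α` is in the tree. -/
theorem mem_body_succ {e : Cond I} {α : I} (hb : e.Below (nx α)) {y : Pt I}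
    (h1 : y ∈ (e.restr α).body) (h2 : y α ∈ bd (ty α) (e.T α y)) : y ∈ e.body := by
  intro i hi
  have hlt : i < nx α := hb i hi
  rcases lt_trichotomy i α with h | h | h
  · exact Cond.mem_restr.1 h1 i hi h
  · rw [h]; exact h2
  · exact absurd (nx_le α i h) (not_le.2 hlt)

section
variable {N : Set (Cond I)} {Dq : ℕ → Set (Cond I)} {α : I} {e0 : Cond I} {y : Pt I}
  {e : List ℕ → Cond I} {s : List ℕ → Node} {m : List ℕ → ℕ → ℕ}

theorem msys_e (h : MSys I N Dq α e0 y e s m) {σ τ : List ℕ} (hστ : σ <+: τ) : e τ ≤ e σ := by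
  obtain ⟨t, rfl⟩ := hστ
  induction t using List.reverseRecOn with
  | nil => rw [List.append_nil]
  | append_singleton t k ih =>
    rw [← List.append_assoc]
    exact (h.step _ k).trans ih

theorem prefix_z1 (t : Node) (k : ℕ) : t <+: z1 t k := by
  unfold z1
  exact (List.prefix_append _ _).trans (List.prefix_append _ _)

theorem msys_s (h : MSys I N Dq α e0 y e s m) {σ τ : List ℕ} (hστ : σ <+: τ) : s σ <+: s τ := by
  obtain ⟨t, rfl⟩ := hστ
  induction t using List.reverseRecOn with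
  | nil => rw [List.append_nil]
  | append_singleton t k ih =>
    rw [← List.append_assoc]
    exact ih.trans ((prefix_z1 _ _).trans (h.node _ k))

/-- Reindexing of a Miller system. -/
theorem msys_reindex (h : MSys I N Dq α e0 y e s m) (Θ : List ℕ → List ℕ)
    (a : List ℕ → ℕ → ℕ) (ha : ∀ σ, StrictMono (a σ))
    (hΘ : ∀ σ k, Θ σ ++ [a σ k] <+: Θ (σ ++ [k])) :
    MSys I N (fun _ => Set.univ) α e0 y (fun σ => e (Θ σ)) (fun σ => s (Θ σ))
      (fun σ k => m (Θ σ) (a σ k)) where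
  mem := fun σ => h.mem _
  root := (msys_e h (List.nil_prefix)).trans h.root
  step := fun σ k => msys_e h ((List.prefix_append _ _).trans (hΘ σ k))
  hit := fun σ k n _ => ⟨e (Θ (σ ++ [k])), (h.mem _).1, trivial, le_refl _,
    msys_e h ((List.prefix_append _ _).trans (hΘ σ k))⟩
  mono := fun σ => (h.mono _).comp (ha σ)
  node := fun σ k => (h.node _ _).trans (msys_s h (hΘ σ k))
  inT := fun σ => h.inT _

end

/-! ### Passing to subsystems along strictly increasing functions -/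

/-- The subsystem, recursion along the reversed sequence. -/
def thR (κ : List ℕ → ℕ → ℕ) : List ℕ → List ℕ
  | [] => []
  | k :: l => thR κ l ++ [κ (thR κ l) k]

/-- The subsystem. -/
def th (κ : List ℕ → ℕ → ℕ) (σ : List ℕ) : List ℕ := thR κ σ.reverse

theorem th_append (κ : List ℕ → ℕ → ℕ) (σ : List ℕ) (k : ℕ) :
    th κ (σ ++ [k]) = th κ σ ++ [κ (th κ σ) k] := by
  unfold th
  rw [List.reverse_append, List.reverse_singleton, List.singleton_append]
  rfl

theorem thR_measC {κ : Pt I → List ℕ → ℕ → ℕ} (hκ : ∀ τ k, MeasC (fun y => κ y τ k)) :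
    ∀ l, MeasC (fun y => thR (κ y) l) := by
  intro l
  induction l with
  | nil => exact measC_const _
  | cons k l ih =>
    have := MeasC.bindC (f := fun y => thR (κ y) l) ih
      (g := fun τ y => τ ++ [κ y τ k]) (fun τ => (hκ τ k).comp (fun x => τ ++ [x]))
    exact this

theorem th_measC {κ : Pt I → List ℕ → ℕ → ℕ} (hκ : ∀ τ k, MeasC (fun y => κ y τ k))
    (σ : List ℕ) : MeasC (fun y => th (κ y) σ) := thR_measC hκ _

/-- module RM -/
theorem rmStmt (hProp : PropStmt I) (hHull : HullStmt.{0} I) (hGd : GdStmt I) (hHg : HgStmt I)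
    (hClaim : ClaimStmt I) (hMfus : MfusStmt I) (hSys : SysStmt I) (hFtm : FtMStmt)
    (hClp : ClpStmt) (hTyp : TypStmt) (hGap : GapStmt) (hCst2 : Cst2Stmt I) : RmStmt I := by
  classical
  intro α hα hRp p hp C hC f hf hfd
  obtain ⟨e0, N, Z, 𝒟, he0p, he0N, hαZ, hN, hD, hDd⟩ :=
    hull_dec hProp hHull hGd hCst2 (lt_nx α) hf hfd hp
  obtain ⟨r, hr, hrG⟩ := gen_cond hProp hClaim hHg (lt_nx α) hN hD he0N
  obtain ⟨e, s, m, he, hs, hm, hM⟩ := hMfus (nx α) N Z 𝒟 hN hD α hαZ hα e0 he0N (Dd f) hDd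
  obtain ⟨Xc, κ, hXm, hκm, hXκ⟩ := hClp
  have hdα : ∀ {γ : Type} {F : Pt I → γ}, DepOn (Z ∩ Set.Iio α) F → Dep α F := by
    intro γ F hF
    exact hF.mono Set.inter_subset_right
  -- decided parts
  set F : Pt I → List ℕ → ℕ → Set ℕ := fun y τ j => FC f (e (τ ++ [j]) y) with hF
  have hFm : ∀ τ, Measurable (fun y => F y τ) := by
    intro τ
    rw [measurable_pi_iff]
    intro j
    exact ((he (τ ++ [j])).1.comp (FC f)).measurable
  have hFd : Dep α F := by
    intro y y' h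
    funext τ j
    have := hdα (he (τ ++ [j])).2 y y' h
    simp only [hF, this]
  set κ' : Pt I → List ℕ → ℕ → ℕ := fun y τ k => κ (F y τ) k with hκ'
  have hκ'm : ∀ τ k, MeasC (fun y => κ' y τ k) := by
    intro τ k
    exact ⟨fun x => hFm τ ((hκm k).1 x), Set.to_countable _⟩
  have hκ'd : Dep α κ' := by
    intro y y' h
    simp only [hκ', hFd y y' h]
  set X : List ℕ → Pt I → Set ℕ := fun σ y => Xc (F y (th (κ' y) σ)) with hX
  have hXm' : ∀ σ, Measurable (X σ) ∧ Dep α (X σ) := by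
    intro σ
    constructor
    · exact MeasC.bind (f := fun y => th (κ' y) σ) (th_measC hκ'm σ)
        (g := fun τ y => Xc (F y τ)) (fun τ => hXm.comp (hFm τ))
    · intro y y' h
      simp only [hX, hFd y y' h, hκ'd y y' h]
  obtain ⟨q, hqr, hqV, B, hBC, hBi, i, h, D, hh, hDm, hDd', hcore⟩ :=
    core hProp hCst2 hTyp hGap hRp hr hC X hXm' (fun k => k) (fun n => ⟨n, le_refl n, le_refl n⟩)
  -- the systems
  have hM1 : ∀ y ∈ q.body, MSys I N (fun _ => Set.univ) α e0 y (fun σ => e (th (κ' y) σ) y)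
      (fun σ => s (th (κ' y) σ) y) (fun σ k => m (th (κ' y) σ) (κ' y (th (κ' y) σ) k) y) := by
    intro y hy
    have h1 := hrG y (hqr hy)
    exact msys_reindex (hM y h1.1 h1.2) (th (κ' y)) (fun σ k => κ' y (th (κ' y) σ) k)
      (fun σ => (hXκ _).1) (fun σ k => by rw [th_append])
  have hM2 : ∀ y ∈ q.body, MSys I N (fun _ => Set.univ) α e0 y
      (fun σ => e (th (κ' y) (h σ y)) y) (fun σ => s (th (κ' y) (h σ y)) y)
      (fun σ k => m (th (κ' y) (h σ y)) (κ' y (th (κ' y) (h σ y)) k) y) := by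
    intro y hy
    have h1 := msys_reindex (hM1 y hy) (fun σ => h σ y) (fun σ k => k) (fun σ => strictMono_id)
      (fun σ k => (hcore y hy).1 σ k)
    exact h1
  -- decision
  have hdec : ∀ y ∈ q.body, ∀ σ k n, n < k → ∀ y' ∈ (e (th (κ' y) (σ ++ [k])) y).body,
      (n ∈ f y' ↔ n ∈ X σ y) := by
    intro y hy σ k n hn y' hy'
    have h1 := hrG y (hqr hy)
    rw [th_append] at hy'
    obtain ⟨d, -, hd1, hd2, -⟩ := (hM y h1.1 h1.2).hit (th (κ' y) σ) (κ' y (th (κ' y) σ) k)
      ((th (κ' y) σ).length + κ' y (th (κ' y) σ) k) (le_refl _)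
    have hk : k ≤ κ' y (th (κ' y) σ) k := (hXκ _).1.le_apply
    rw [mem_FC_iff hd1 hd2 (by omega) hy']
    exact (hXκ (F y (th (κ' y) σ))).2 k n hn
  -- the tree
  have hsm : ∀ σ, MeasC (fun y => s (th (κ' y) (h σ y)) y) := by
    intro σ
    have h1 : MeasC (fun y => th (κ' y) (h σ y)) :=
      MeasC.bindC (f := h σ) (hh σ).1 (g := fun τ y => th (κ' y) τ) (fun τ => th_measC hκ'm τ)
    exact MeasC.bindC (f := fun y => th (κ' y) (h σ y)) h1 (g := fun τ y => s τ y)
      (fun τ => (hs τ).1)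
  set T' : Pt I → Set Node := fun y => ftM (fun σ => s (th (κ' y) (h σ y)) y) (D y) with hT'
  have hT'm : Measurable T' := hFtm.2 (Pt I) (fun σ y => s (th (κ' y) (h σ y)) y) D hsm hDm
  have hT'd : Dep α T' := by
    intro y y' hy
    have h1 : (fun σ => s (th (κ' y) (h σ y)) y) = (fun σ => s (th (κ' y') (h σ y')) y') := by
      funext σ
      rw [hκ'd y y' hy, (hh σ).2 y y' hy]
      exact hdα (hs _).2 y y' hy
    simp only [hT']
    rw [h1, hDd' y y' hy]
  have hgood : ∀ y ∈ q.body, Good true (T' y) ∧ ∀ x ∈ bd true (T' y), ∃ g : ℕ → ℕ, ∀ n,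
      MG.ini g n ∈ D y ∧ On (s (th (κ' y) (h (MG.ini g n) y)) y) x := by
    intro y hy
    exact hFtm.1 _ _ (D y) (hcore y hy).2.1 (hM2 y hy).mono (hM2 y hy).node
  have hqb : q.Below α := hqV.below
  have hq' : ∀ y ∈ (q.restr α).body, y ∈ q.body := by
    intro y hy
    rwa [hqb.restr_eq] at hy
  have hset : ∀ y ∈ (q.restr α).body, Good (ty α) (T' y) ∧ T' y ⊆ q.T α y := by
    intro y hy
    constructor
    · rw [hα]; exact (hgood y (hq' y hy)).1
    · rw [hqb.T_eq (le_refl α)]; exact Set.subset_univ _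
  have hmain : ∀ y ∈ (q.setT α T' hT'm hT'd).body, y ∈ q.body ∧ ∃ g : ℕ → ℕ, ∀ n,
      MG.ini g n ∈ D y ∧ y ∈ (e (th (κ' y) (h (MG.ini g n) y)) y).body := by
    intro y hy
    have hyq : y ∈ q.body := Cond.setT_le q T' hT'm hT'd hset hy
    refine ⟨hyq, ?_⟩
    have hyα : y α ∈ bd true (T' y) := by
      have := hy α (by rw [Cond.setT_S]; exact Set.mem_insert _ _)
      rw [Cond.setT_T_self q T' hT'm hT'd (by rw [hα]; exact (hgood y hyq).1), hα] at this
      exact this
    obtain ⟨g, hg⟩ := (hgood y hyq).2 (y α) hyα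
    refine ⟨g, fun n => ⟨(hg n).1, ?_⟩⟩
    obtain ⟨hinf, hbS⟩ := hSys.1 N (fun _ => Set.univ) α e0 y _ _ _ (hM2 y hyq) (y α) g
      (fun n => (hg n).2)
    obtain ⟨h1, h2, -⟩ := (hM2 y hyq).mem (MG.ini g n)
    apply mem_body_succ (hN.vb _ h1).below h2
    rw [hα]
    exact ⟨hbS n, fun _ => hinf⟩
  refine ⟨q.setT α T' hT'm hT'd, fun y hy => ?_, ?_, B, hBC, hBi, i, fun y hy b hb => ?_⟩
  · obtain ⟨hyq, g, hg⟩ := hmain y hy
    exact he0p ((hM2 y hyq).root (hg 0).2)
  · exact VB.setT (hqV.mono (lt_nx α).le) (lt_nx α) T' hT'm hT'd hset (fun h0 => by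
      rw [hα] at h0; exact absurd h0 (by decide))
  · obtain ⟨hyq, g, hg⟩ := hmain y hy
    obtain ⟨j, hj1, hj2⟩ := ((hcore y hyq).2.2 b hb).2 g (fun n => (hg n).1)
    rw [← hj2]
    apply hdec y hyq (h (MG.ini g j) y) (g j) b hj1 y
    have h1 := (hg (j + 1)).2
    rw [ini_succ] at h1
    have h2 := (hcore y hyq).1 (MG.ini g j) (g j)
    exact msys_e (hM1 y hyq) h2 h1

end Pool.Agent.MG.H14
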