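import Pool.Agent.Helper14_MG.Rm

/-!
# Squad MG: module RS, reaping at a Sacks successor (helper14)
-/

open Set

namespace Pool.Agent.MG.H14

open Pool.Agent.MG

variable {I : Type} [Idx I]

section
variable {N : Set (Cond I)} {Dq : ℕ → Set (Cond I)} {α : I} {e0 : Cond I} {y : Pt I}
  {e : List Bool → Cond I} {s : List Bool → Node}

theorem ssys_e (h : SSys I N Dq α e0 y e s) {σ τ : List Bool} (hστ : σ <+: τ) : e τ ≤ e σ := by
  obtain ⟨t, rfl⟩ := hστ
  induction t using List.reverseRecOn with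
  | nil => rw [List.append_nil]
  | append_singleton t k ih =>
    rw [← List.append_assoc]
    exact (h.step _ k).trans ih

theorem ssys_s (h : SSys I N Dq α e0 y e s) {σ τ : List Bool} (hστ : σ <+: τ) :
    s σ <+: s τ := by
  obtain ⟨t, rfl⟩ := hστ
  induction t using List.reverseRecOn with
  | nil => rw [List.append_nil]
  | append_singleton t k ih =>
    rw [← List.append_assoc]
    exact ih.trans ((List.prefix_append _ _).trans (h.node _ k))

theorem ssys_len (h : SSys I N Dq α e0 y e s) (σ : List Bool) : σ.length ≤ (s σ).length := by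
  induction σ using List.reverseRecOn with
  | nil => exact Nat.zero_le _
  | append_singleton σ b ih =>
    have := (h.node σ b).length_le
    simp only [List.length_append, List.length_singleton] at this ⊢
    omega

/-- A branch through the nodes of a chain of the system is in the trees of the system. -/
theorem ssys_branch (h : SSys I N Dq α e0 y e s) (τ : ℕ → List Bool)
    (hτ : ∀ n, τ n <+: τ (n + 1)) (hl : ∀ n, n ≤ (τ n).length) {x : R}
    (hx : ∀ n, On (s (τ n)) x) (n : ℕ) : x ∈ bS ((e (τ n)).T α y) := by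
  have hmono : ∀ k, τ n <+: τ (n + k) := by
    intro k
    induction k with
    | zero => exact List.prefix_rfl
    | succ k ih => exact ih.trans (hτ _)
  intro k
  have h1 : k ≤ (s (τ (n + k))).length :=
    ((Nat.le_add_left k n).trans (hl _)).trans (ssys_len h _)
  have h2 : s (τ (n + k)) ∈ (e (τ n)).T α y :=
    Cond.T_subset (ssys_e h (hmono k)) (h.mem _).2.1 (h.inT _)
  apply ((e (τ n)).good α y).mem_of_isPrefix _ h2
  have h3 : pre x (s (τ (n + k))).length = s (τ (n + k)) := hx (n + k)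
  rw [← h3]
  exact pre_isPrefix x h1

theorem ssys_dec (h : SSys I N Dq α e0 y e s) {f : Pt I → Set ℕ}
    (hDq : ∀ m, Dq (2 * m) = Dd f m) {τ : List Bool} {n : ℕ} (hτ : 2 * n + 3 ≤ τ.length)
    {y' : Pt I} (hy' : y' ∈ (e τ).body) : n ∈ f y' ↔ n ∈ FC f (e τ) := by
  have h0 : 2 * n + 2 < τ.length := by omega
  have h1 : τ.take (2 * n + 2) ++ [τ[2 * n + 2]] <+: τ := by
    rw [List.take_append_getElem]
    exact List.take_prefix _ _
  obtain ⟨d, -, hd1, hd2, -⟩ := h.hit (τ.take (2 * n + 2)) τ[2 * n + 2] (2 * (n + 1)) (by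
    rw [List.length_take]; omega)
  rw [hDq] at hd1
  exact mem_FC_iff hd1 ((ssys_e h h1).trans hd2) (Nat.lt_succ_self n) hy'

end

/-! ### Codes -/

theorem cd_append (σ τ : List ℕ) : cd (σ ++ τ) = cd σ ++ cd τ := by
  simp [cd]

theorem cd_singleton (k : ℕ) : cd [k] = List.replicate k false ++ [true] := by
  simp [cd]

theorem cd_prefix {σ τ : List ℕ} (h : σ <+: τ) : cd σ <+: cd τ := by
  obtain ⟨t, rfl⟩ := h
  rw [cd_append]
  exact List.prefix_append _ _

theorem cd_len (σ : List ℕ) : σ.length ≤ (cd σ).length := by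
  induction σ using List.reverseRecOn with
  | nil => exact Nat.zero_le _
  | append_singleton σ k ih =>
    rw [cd_append, cd_singleton]
    simp only [List.length_append, List.length_singleton, List.length_replicate]
    omega

/-- Decoding of a reversed binary sequence. -/
def decR : List Bool → List ℕ × ℕ
  | [] => ([], 0)
  | false :: l => ((decR l).1, (decR l).2 + 1)
  | true :: l => ((decR l).1 ++ [(decR l).2], 0)

/-- Decoding of a binary sequence. -/
def dec (τ : List Bool) : List ℕ × ℕ := decR τ.reverse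

theorem dec_false (τ : List Bool) : dec (τ ++ [false]) = ((dec τ).1, (dec τ).2 + 1) := by
  unfold dec
  rw [List.reverse_append, List.reverse_singleton, List.singleton_append]
  rfl

theorem dec_true (τ : List Bool) : dec (τ ++ [true]) = ((dec τ).1 ++ [(dec τ).2], 0) := by
  unfold dec
  rw [List.reverse_append, List.reverse_singleton, List.singleton_append]
  rfl

theorem dec_rep {τ : List Bool} {σ : List ℕ} (h : dec τ = (σ, 0)) (n : ℕ) :
    dec (τ ++ List.replicate n false) = (σ, n) := by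
  induction n with
  | zero => rw [List.replicate_zero, List.append_nil]; exact h
  | succ n ih =>
    rw [List.replicate_succ', ← List.append_assoc, dec_false, ih]

theorem dec_cd (σ : List ℕ) : dec (cd σ) = (σ, 0) := by
  induction σ using List.reverseRecOn with
  | nil => rfl
  | append_singleton σ k ih =>
    rw [cd_append, cd_singleton, ← List.append_assoc, dec_true, dec_rep ih k]

/-- Reindexing of binary sequences. -/
def Th (h : List ℕ → List ℕ) (τ : List Bool) : List Bool :=
  cd (h (dec τ).1) ++ List.replicate (dec τ).2 false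

theorem Th_cd (h : List ℕ → List ℕ) (σ : List ℕ) (n : ℕ) :
    Th h (cd σ ++ List.replicate n false) = cd (h σ) ++ List.replicate n false := by
  unfold Th
  rw [dec_rep (dec_cd σ) n]

theorem Th_cd' (h : List ℕ → List ℕ) (σ : List ℕ) : Th h (cd σ) = cd (h σ) := by
  have := Th_cd h σ 0
  simpa only [List.replicate_zero, List.append_nil] using this

theorem Th_append {h : List ℕ → List ℕ} (hh : ∀ σ k, h σ ++ [k] <+: h (σ ++ [k]))
    (τ : List Bool) (b : Bool) : Th h τ ++ [b] <+: Th h (τ ++ [b]) := by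
  cases b
  · unfold Th
    rw [dec_false, List.append_assoc, ← List.replicate_succ']
  · unfold Th
    rw [dec_true]
    have h1 := cd_prefix (hh (dec τ).1 (dec τ).2)
    rw [cd_append, cd_singleton, ← List.append_assoc] at h1
    exact h1.trans (List.prefix_append _ _)

theorem h_prefix {h : List ℕ → List ℕ} (hh : ∀ σ k, h σ ++ [k] <+: h (σ ++ [k])) {σ τ : List ℕ}
    (hστ : σ <+: τ) : h σ <+: h τ := by
  obtain ⟨t, rfl⟩ := hστ
  induction t using List.reverseRecOn with
  | nil => rw [List.append_nil]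
  | append_singleton t k ih =>
    rw [← List.append_assoc]
    exact ih.trans ((List.prefix_append _ _).trans (hh _ k))

theorem h_len {h : List ℕ → List ℕ} (hh : ∀ σ k, h σ ++ [k] <+: h (σ ++ [k])) (σ : List ℕ) :
    σ.length ≤ (h σ).length := by
  induction σ using List.reverseRecOn with
  | nil => exact Nat.zero_le _
  | append_singleton σ b ih =>
    have := (hh σ b).length_le
    simp only [List.length_append, List.length_singleton] at this ⊢
    omega

/-- module RS -/
theorem rsStmt (hProp : PropStmt I) (hHull : HullStmt.{0} I) (hGd : GdStmt I) (hHg : HgStmt I)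
    (hClaim : ClaimStmt I) (hSfus : SfusStmt I) (hSfree : SfreeStmt I) (hFts : FtSStmt)
    (hTyp : TypStmt) (hGap : GapStmt) (hCst2 : Cst2Stmt I) : RsStmt I := by
  classical
  intro α hα hRp p hp C hC f hf hfd
  obtain ⟨e0, N, Z, 𝒟, he0p, he0N, hαZ, hN, hD, hDd⟩ :=
    hull_dec hProp hHull hGd hCst2 (lt_nx α) hf hfd hp
  obtain ⟨r, hr, hrG⟩ := gen_cond hProp hClaim hHg (lt_nx α) hN hD he0N
  -- enumeration of the dense sets
  obtain ⟨g0, hg0⟩ := hD.cnt.exists_eq_range ⟨_, hDd 0⟩
  set Dq : ℕ → Set (Cond I) := fun n => if n % 2 = 0 then Dd f (n / 2) else g0 (n / 2) with hDq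
  have hDq0 : ∀ m, Dq (2 * m) = Dd f m := by
    intro m
    simp only [hDq]
    rw [if_pos (by omega), show 2 * m / 2 = m by omega]
  have hDq1 : ∀ m, Dq (2 * m + 1) = g0 m := by
    intro m
    simp only [hDq]
    rw [if_neg (by omega), show (2 * m + 1) / 2 = m by omega]
  have hDqm : ∀ n, Dq n ∈ 𝒟 := by
    intro n
    simp only [hDq]
    split_ifs
    · exact hDd _
    · rw [hg0]; exact ⟨_, rfl⟩
  have hDqr : Set.range Dq = 𝒟 := by
    apply Set.Subset.antisymm
    · rintro _ ⟨n, rfl⟩
      exact hDqm n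
    · intro D hD'
      rw [hg0] at hD'
      obtain ⟨n, rfl⟩ := hD'
      exact ⟨2 * n + 1, hDq1 n⟩
  obtain ⟨e, s, he, hs, hM⟩ := hSfus (nx α) N Z 𝒟 hN hD α hαZ hα e0 he0N Dq hDqm
  -- the stage of the parameters
  obtain ⟨ρ, hρα, hρ1, hρ2⟩ : ∃ ρ, ρ ≤ α ∧ (∀ i ∈ Z, i < α → i < ρ) ∧
      (∀ ε, ε < ρ → ∃ i ∈ Z, i < α ∧ ε ≤ i) := by
    have hne : {ρ : I | ∀ i ∈ Z, i < α → i < ρ}.Nonempty := ⟨α, fun i _ h => h⟩
    refine ⟨(wellFounded_lt (α := I)).min _ hne, ?_, ?_, ?_⟩
    · exact not_lt.1 ((wellFounded_lt (α := I)).not_lt_min _ (fun i _ h => h))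
    · exact (wellFounded_lt (α := I)).min_mem _ hne
    · intro ε hε
      by_contra hcon
      push Not at hcon
      have hmem : ε ∈ {ρ : I | ∀ i ∈ Z, i < α → i < ρ} := fun i hi hiα => hcon i hi hiα
      exact (wellFounded_lt (α := I)).not_lt_min _ hmem hε
  have hdρ : ∀ {γ : Type} {F : Pt I → γ}, DepOn (Z ∩ Set.Iio α) F → Dep ρ F := by
    intro γ F hF
    exact hF.mono (fun i hi => hρ1 i hi.1 hi.2)
  have hFree := hSfree (nx α) N Z 𝒟 hN hD α hαZ hα e0 he0N Dq hDqr e s hM ρ hρα hρ1 hρ2
    (hProp ρ).1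
  -- interpretations
  set X : List ℕ → Pt I → Set ℕ :=
    fun σ y => {n | n ∈ FC f (e (cd σ ++ List.replicate (2 * n + 3) false) y)} with hX
  have hXm' : ∀ σ, Measurable (X σ) ∧ Dep ρ (X σ) := by
    intro σ
    constructor
    · rw [measurable_nat_iff]
      intro n
      exact (he (cd σ ++ List.replicate (2 * n + 3) false)).1.preimage {d | n ∈ FC f d}
    · intro y y' h
      ext n
      have h1 := hdρ (he (cd σ ++ List.replicate (2 * n + 3) false)).2 y y' h
      change n ∈ FC f _ ↔ n ∈ FC f _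
      rw [h1]
  obtain ⟨q1, hqr1, hqV1, B, hBC, hBi, i, h, D, hh, hDm, hDd', hcore1⟩ :=
    core hProp hCst2 hTyp hGap (hRp ρ hρα) (hr.restr ρ) hC X hXm' (fun k => (k - 1) / 2)
      (fun n => ⟨2 * n + 1, by omega, by omega⟩)
  set q : Cond I := Cond.glue q1 r ρ with hq
  have hle' : q1.restr ρ ≤ r.restr ρ := by
    rw [hqV1.below.restr_eq]; exact hqr1
  have hqV : VB α q := VB.glue hqV1 hr hρα hle'
  have hqr : q ≤ r := Cond.glue_le_right hle'
  have hqq1 : q ≤ q1 := Cond.glue_le_left hqV1.below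
  have hcore : ∀ y ∈ q.body, (∀ σ k, h σ y ++ [k] <+: h (σ ++ [k]) y) ∧ Big (D y) ∧ ∀ b ∈ B,
        (∀ σ ∈ D y, (∃ j, ∃ hj : j < σ.length, b < (σ[j] - 1) / 2 ∧
            (b ∈ X (h (σ.take j) y) y ↔ i = true)) ∨ (b ∈ X (h σ y) y ↔ i = true)) ∧
        ∀ g : ℕ → ℕ, (∀ n, MG.ini g n ∈ D y) → ∃ j, b < (g j - 1) / 2 ∧
          (b ∈ X (h (MG.ini g j) y) y ↔ i = true) := fun y hy => hcore1 y (hqq1 hy)
  have hSS : ∀ y ∈ q.body, SSys I N Dq α e0 y (fun σ => e σ y) (fun σ => s σ y) := by
    intro y hy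
    have h1 := hrG y (hqr hy)
    exact hM y h1.1 h1.2
  -- decision
  have hdec : ∀ y ∈ q.body, ∀ σ k n, n < (k - 1) / 2 →
      ∀ y' ∈ (e (cd σ ++ List.replicate k false) y).body, (n ∈ f y' ↔ n ∈ X σ y) := by
    intro y hy σ k n hn y' hy'
    have h1 : cd σ ++ List.replicate (2 * n + 3) false <+: cd σ ++ List.replicate k false := by
      rw [List.prefix_append_right_inj]
      refine ⟨List.replicate (k - (2 * n + 3)) false, ?_⟩
      rw [← List.replicate_add]
      congr 1
      omega
    exact ssys_dec (hSS y hy) hDq0 (τ := cd σ ++ List.replicate (2 * n + 3) false) (by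
      rw [List.length_append, List.length_replicate]; omega) (ssys_e (hSS y hy) h1 hy')
  -- the tree
  set sy : List Bool → Pt I → Node := fun τ y => s (Th (fun σ => h σ y) τ) y with hsy
  have hsm : ∀ τ, MeasC (sy τ) := by
    intro τ
    have h1 : MeasC (fun y => Th (fun σ => h σ y) τ) :=
      (hh (dec τ).1).1.comp (fun l => cd l ++ List.replicate (dec τ).2 false)
    exact MeasC.bindC (f := fun y => Th (fun σ => h σ y) τ) h1 (g := fun τ' y => s τ' y)
      (fun τ' => (hs τ').1)
  have hsd : ∀ y y' : Pt I, (∀ i, i < ρ → y i = y' i) →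
      (fun τ => sy τ y) = (fun τ => sy τ y') := by
    intro y y' hy
    funext τ
    have h1 : (fun σ => h σ y) = (fun σ => h σ y') := by
      funext σ
      exact (hh σ).2 y y' hy
    simp only [hsy]
    rw [h1]
    exact hdρ (hs _).2 y y' hy
  obtain ⟨-, hg2, -, -⟩ := hHg (nx α) N Z 𝒟 hN hD
  have hGm := (hg2 α (lt_nx α)).1
  have hGd' := (hg2 α (lt_nx α)).2
  have hed := Cond.depOn_restr_body (hN.supp e0 he0N) (hN.dep e0 he0N) α
  set T' : Pt I → Set Node := fun y => {t | (y ∈ (e0.restr α).body ∧ Gen I N 𝒟 α y) ∧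
    t ∈ ftSD (fun τ => sy τ y) (D y)} with hT'
  have hT'm : Measurable T' := by
    rw [measurable_node_iff]
    intro t
    have h1 := (hFts.2 (Pt I) sy D hsm hDm).2
    rw [measurable_node_iff] at h1
    exact (((e0.restr α).measurableSet_body).inter hGm).inter (h1 t)
  have hT'd : Dep ρ T' := by
    intro y y' hy
    have h1 : (y ∈ (e0.restr α).body) = (y' ∈ (e0.restr α).body) :=
      hed y y' (fun j hj => hy j (hρ1 j hj.1 hj.2))
    have h2 : Gen I N 𝒟 α y = Gen I N 𝒟 α y' :=
      hGd' y y' (fun j hj => hy j (hρ1 j hj.1 hj.2))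
    simp only [hT']
    rw [h1, h2, hsd y y' hy, hDd' y y' hy]
  have hT'd' : Dep α T' := hT'd.mono hρα
  have hT'F : Fr ρ (fun y => bS (T' y)) := by
    refine Fr.sub hFree ?_
    intro y x hx
    refine ⟨(hx 0).1.1, (hx 0).1.2, ?_⟩
    intro n
    obtain ⟨σ, hσ, k, hk⟩ := (hx n).2
    exact ⟨_, hk⟩
  have hgood : ∀ y ∈ q.body, Good false (T' y) ∧ ∀ x ∈ bS (T' y),
      (∃ σ ∈ D y, ∀ n, On (s (cd (h σ y) ++ List.replicate n false) y) x) ∨
      (∃ g : ℕ → ℕ, ∀ n, MG.ini g n ∈ D y ∧ On (s (cd (h (MG.ini g n) y)) y) x) := by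
    intro y hy
    have h0 := hrG y (hqr hy)
    have h1 : T' y = ftSD (fun τ => sy τ y) (D y) := by
      ext t
      exact ⟨fun ht => ht.2, fun ht => ⟨h0, ht⟩⟩
    have h2 : ∀ τ b, sy τ y ++ [b] <+: sy (τ ++ [b]) y := by
      intro τ b
      exact ((hSS y hy).node _ b).trans (ssys_s (hSS y hy) (Th_append (hcore y hy).1 τ b))
    obtain ⟨-, -, h3⟩ := hFts.1 (fun τ => sy τ y) h2
    obtain ⟨h4, -, h5⟩ := h3 (D y) (hcore y hy).2.1
    rw [h1]
    refine ⟨h4, fun x hx => ?_⟩
    rcases h5 x hx with ⟨σ, hσ, hσx⟩ | ⟨g, hg⟩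
    · left
      refine ⟨σ, hσ, fun n => ?_⟩
      have := hσx n
      simp only [hsy, Th_cd] at this
      exact this
    · right
      refine ⟨g, fun n => ⟨(hg n).1, ?_⟩⟩
      have := (hg n).2
      simp only [hsy, Th_cd'] at this
      exact this
  have hqb : q.Below α := hqV.below
  have hq' : ∀ y ∈ (q.restr α).body, y ∈ q.body := by
    intro y hy
    rwa [hqb.restr_eq] at hy
  have hset : ∀ y ∈ (q.restr α).body, Good (ty α) (T' y) ∧ T' y ⊆ q.T α y := by
    intro y hy
    constructor
    · rw [hα]; exact (hgood y (hq' y hy)).1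
    · rw [hqb.T_eq (le_refl α)]; exact Set.subset_univ _
  have hmain : ∀ y ∈ (q.setT α T' hT'm hT'd').body, y ∈ q.body ∧ y ∈ (e [] y).body ∧
      ∀ b ∈ B, ∃ σ k, b < (k - 1) / 2 ∧ y ∈ (e (cd σ ++ List.replicate k false) y).body ∧
        (b ∈ X σ y ↔ i = true) := by
    intro y hy
    have hyq : y ∈ q.body := Cond.setT_le q T' hT'm hT'd' hset hy
    have hS := hSS y hyq
    have hyα : y α ∈ bS (T' y) := by
      have := hy α (by rw [Cond.setT_S]; exact Set.mem_insert _ _)
      rw [Cond.setT_T_self q T' hT'm hT'd' (by rw [hα]; exact (hgood y hyq).1), hα, bd_false]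
        at this
      exact this
    -- points of the conditions of a chain
    have hchain : ∀ τ : ℕ → List Bool, (∀ n, τ n <+: τ (n + 1)) → (∀ n, n ≤ (τ n).length) →
        (∀ n, On (s (τ n) y) (y α)) → ∀ n, y ∈ (e (τ n) y).body := by
      intro τ hτ1 hτ2 hτ3 n
      have h1 := ssys_branch hS τ hτ1 hτ2 hτ3 n
      obtain ⟨h2, h3, -⟩ := hS.mem (τ n)
      apply mem_body_succ (hN.vb _ h2).below h3
      rw [hα, bd_false]
      exact h1
    have hh' := (hcore y hyq).1
    rcases (hgood y hyq).2 (y α) hyα with ⟨σ, hσ, hσx⟩ | ⟨g, hg⟩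
    · have h1 := hchain (fun n => cd (h σ y) ++ List.replicate n false) (by
        intro n
        rw [List.prefix_append_right_inj, List.replicate_succ']
        exact List.prefix_append _ _) (by
        intro n
        rw [List.length_append, List.length_replicate]; omega) hσx
      refine ⟨hyq, ssys_e hS List.nil_prefix (h1 0), ?_⟩
      intro b hb
      rcases ((hcore y hyq).2.2 b hb).1 σ hσ with ⟨j, hj, hj1, hj2⟩ | h2
      · refine ⟨h (σ.take j) y, σ[j], hj1, ?_, hj2⟩
        have h3 : h (σ.take j) y ++ [σ[j]] <+: h σ y := by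
          refine (hh' (σ.take j) σ[j]).trans ?_
          rw [List.take_append_getElem]
          exact h_prefix hh' (List.take_prefix _ _)
        have h4 := cd_prefix h3
        rw [cd_append, cd_singleton, ← List.append_assoc] at h4
        have h5 := (List.prefix_append (cd (h (σ.take j) y) ++ List.replicate σ[j] false)
          [true]).trans h4
        have h6 := h1 0
        simp only [List.replicate_zero, List.append_nil] at h6
        exact ssys_e hS h5 h6
      · exact ⟨h σ y, 2 * b + 3, by omega, h1 _, h2⟩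
    · have h1 := hchain (fun n => cd (h (MG.ini g n) y)) (by
        intro n
        rw [ini_succ]
        exact cd_prefix (h_prefix hh' (List.prefix_append _ _))) (by
        intro n
        have h2 := cd_len (h (MG.ini g n) y)
        have h3 := h_len hh' (MG.ini g n)
        have h4 : (MG.ini g n).length = n := by simp [MG.ini]
        omega) (fun n => (hg n).2)
      refine ⟨hyq, ssys_e hS List.nil_prefix (h1 0), ?_⟩
      intro b hb
      obtain ⟨j, hj1, hj2⟩ := ((hcore y hyq).2.2 b hb).2 g (fun n => (hg n).1)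
      refine ⟨h (MG.ini g j) y, g j, hj1, ?_, hj2⟩
      have h3 := hh' (MG.ini g j) (g j)
      rw [← ini_succ] at h3
      have h4 := cd_prefix h3
      rw [cd_append, cd_singleton, ← List.append_assoc] at h4
      have h5 := (List.prefix_append (cd (h (MG.ini g j) y) ++ List.replicate (g j) false)
        [true]).trans h4
      exact ssys_e hS h5 (h1 (j + 1))
  refine ⟨q.setT α T' hT'm hT'd', fun y hy => ?_, ?_, B, hBC, hBi, i, fun y hy b hb => ?_⟩
  · obtain ⟨hyq, hy1, -⟩ := hmain y hy
    exact he0p ((hSS y hyq).root hy1)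
  · exact VB.setT (hqV.mono (lt_nx α).le) (lt_nx α) T' hT'm hT'd' hset (fun _ =>
      LV_of_Fr hρα hT'm hT'd hT'F (fun y _ => rfl))
  · obtain ⟨hyq, -, hyB⟩ := hmain y hy
    obtain ⟨σ, k, h1, h2, h3⟩ := hyB b hb
    rw [← h3]
    exact hdec y hyq σ k b h1 y h2

end Pool.Agent.MG.H14
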